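import Pool.Agent.W2helper90.RT.Stm

/-!
Pieces GEN and KINF of helper90's project RT.
-/

set_option autoImplicit false

open MeasureTheory Set Filter Topology Matrix

namespace Pool.Agent.W2helper90.RT

open LTd (pd pp cc JJ bco)
open Pool.Agent.R282.KO

/-- the density is integrable -/
theorem rho_int {d N : ℕ} {u : Fin N → (Fin d → ℝ) → ℂ} (hu : ∀ n, MemLp (u n) 2 volume) :
    Integrable (fun x => ∑ n, ‖u n x‖ ^ 2) := by
  apply integrable_finsetSum
  intro n _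
  have h := (hu n).integrable_norm_rpow (by norm_num) (by norm_num)
  refine h.congr (Filter.Eventually.of_forall fun x => ?_)
  simp

theorem rho_nonneg {d N : ℕ} (u : Fin N → (Fin d → ℝ) → ℂ) (x : Fin d → ℝ) :
    0 ≤ ∑ n, ‖u n x‖ ^ 2 := Finset.sum_nonneg fun n _ => by positivity

theorem t_GEN (h : S_SOB) : S_GEN := by
  intro k m hk N u g hg hS V hV hI hV0
  set T : ℝ := ∑ n, ∑ i, ∫ x, ‖g n i x‖ ^ 2 with hT
  have hT0 : 0 ≤ T := Finset.sum_nonneg fun n _ => Finset.sum_nonneg fun i _ =>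
    integral_nonneg fun x => by positivity
  have hρ := rho_int (fun n => (hg n).f2)
  set R : ENNReal := ENNReal.ofReal T + ENNReal.ofReal (Lcl (k + m)) *
      ∫⁻ x, ENNReal.ofReal (V x ^ (1 + ((k + m : ℕ) : ℝ) / 2)) with hR
  have key : ∀ q : ℕ, ∫⁻ x, ENNReal.ofReal (min (V x) q * ∑ n, ‖u n x‖ ^ 2) ≤ R := by
    intro q
    have hq0 : ∀ x, 0 ≤ min (V x) (q : ℝ) := fun x => le_min (hV0 x) (Nat.cast_nonneg q)
    have h1 := h k m hk N u g hg hS (fun x => min (V x) q) (hV.min measurable_const)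
      (fun x x' h1 h2 => by show min (V x) (q : ℝ) = min (V x') (q : ℝ); rw [hI x x' h1 h2]) hq0 ⟨q, fun x => min_le_right _ _⟩
    have hint : Integrable (fun x => min (V x) (q : ℝ) * ∑ n, ‖u n x‖ ^ 2) := by
      refine hρ.bdd_mul (c := (q : ℝ)) (hV.min measurable_const).aestronglyMeasurable
        (Filter.Eventually.of_forall fun x => ?_)
      rw [Real.norm_of_nonneg (hq0 x)]
      exact min_le_right _ _
    have h2 : ∫⁻ x, ENNReal.ofReal (min (V x) q * ∑ n, ‖u n x‖ ^ 2) =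
        ENNReal.ofReal (∫ x, min (V x) q * ∑ n, ‖u n x‖ ^ 2) := by
      rw [ofReal_integral_eq_lintegral_ofReal hint]
      exact Filter.Eventually.of_forall fun x => mul_nonneg (hq0 x) (rho_nonneg u x)
    have h3 : ∫⁻ x, ENNReal.ofReal (min (V x) (q : ℝ) ^ (1 + ((k + m : ℕ) : ℝ) / 2)) ≤
        ∫⁻ x, ENNReal.ofReal (V x ^ (1 + ((k + m : ℕ) : ℝ) / 2)) := by
      refine lintegral_mono fun x => ENNReal.ofReal_le_ofReal ?_
      exact Real.rpow_le_rpow (hq0 x) (min_le_left _ _) (by positivity)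
    rw [h2]
    calc ENNReal.ofReal (∫ x, min (V x) q * ∑ n, ‖u n x‖ ^ 2)
        = ENNReal.ofReal (T + ((∫ x, min (V x) q * ∑ n, ‖u n x‖ ^ 2) - T)) := by
          congr 1; ring
      _ ≤ ENNReal.ofReal T + ENNReal.ofReal ((∫ x, min (V x) q * ∑ n, ‖u n x‖ ^ 2) - T) :=
          ENNReal.ofReal_add_le
      _ ≤ ENNReal.ofReal T + ENNReal.ofReal (Lcl (k + m)) *
          ∫⁻ x, ENNReal.ofReal (min (V x) (q : ℝ) ^ (1 + ((k + m : ℕ) : ℝ) / 2)) :=
          add_le_add_right h1 _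
      _ ≤ R := add_le_add_right (mul_le_mul_right h3 _) _
  have hmeas : ∀ q : ℕ, AEMeasurable
      (fun x => ENNReal.ofReal (min (V x) (q : ℝ) * ∑ n, ‖u n x‖ ^ 2)) volume := by
    intro q
    exact ((hV.min measurable_const).aemeasurable.mul hρ.aemeasurable).ennreal_ofReal
  have hlim := lintegral_tendsto_of_tendsto_of_monotone (μ := volume)
    (f := fun (q : ℕ) x => ENNReal.ofReal (min (V x) (q : ℝ) * ∑ n, ‖u n x‖ ^ 2))
    (F := fun x => ENNReal.ofReal (V x * ∑ n, ‖u n x‖ ^ 2)) hmeas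
    (Filter.Eventually.of_forall fun x => fun a b hab => ENNReal.ofReal_le_ofReal
      (mul_le_mul_of_nonneg_right (min_le_min le_rfl (by exact_mod_cast hab)) (rho_nonneg u x)))
    (Filter.Eventually.of_forall fun x => by
      apply tendsto_const_nhds.congr'
      obtain ⟨q0, hq0⟩ := exists_nat_ge (V x)
      filter_upwards [eventually_ge_atTop q0] with q hq
      have : V x ≤ (q : ℝ) := hq0.trans (by exact_mod_cast hq)
      rw [min_eq_left this])
  exact le_of_tendsto' hlim key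

theorem kinf_core {d N : ℕ} (hd1 : 1 ≤ d) (u : Fin N → (Fin d → ℝ) → ℂ)
    (hu : ∀ n, MemLp (u n) 2 volume) (T L K : ℝ) (hT0 : 0 ≤ T) (hL : 0 < L)
    (hK : K = (d : ℝ) / (d + 2) * (2 / (L * ((d : ℝ) + 2))) ^ (2 / (d : ℝ)))
    (ρ₀ : (Fin d → ℝ) → ℝ) (hρm : Measurable ρ₀) (hρ0 : ∀ x, 0 ≤ ρ₀ x)
    (hae : ∀ᵐ x, ∑ n, ‖u n x‖ ^ 2 = ρ₀ x)
    (h1 : ∀ φ : ℝ → ℝ, Measurable φ → (∀ t, 0 ≤ t → 0 ≤ φ t) →
      ∫⁻ x, ENNReal.ofReal (φ (ρ₀ x) * ∑ n, ‖u n x‖ ^ 2) ≤ ENNReal.ofReal T +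
        ENNReal.ofReal L * ∫⁻ x, ENNReal.ofReal (φ (ρ₀ x) ^ (1 + (d : ℝ) / 2))) :
    Integrable (fun x => (∑ n, ‖u n x‖ ^ 2) ^ (1 + 2 / (d : ℝ))) ∧
      K * ∫ x, (∑ n, ‖u n x‖ ^ 2) ^ (1 + 2 / (d : ℝ)) ≤ T := by
  have hρ := rho_int hu
  have hd0 : (0 : ℝ) < d := by exact_mod_cast hd1
  set c : ℝ := 2 / (L * ((d : ℝ) + 2)) with hc
  have hc0 : 0 < c := by positivity
  have he0 : (0 : ℝ) < 2 / (d : ℝ) := by positivity
  have hρ₀int : Integrable ρ₀ := hρ.congr hae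
  -- the truncated density
  let r : ℕ → (Fin d → ℝ) → ℝ := fun q x => if ρ₀ x ≤ q then ρ₀ x else 0
  have hr0 : ∀ q x, 0 ≤ r q x := by
    intro q x
    show 0 ≤ if ρ₀ x ≤ q then ρ₀ x else 0
    split_ifs
    · exact hρ0 x
    · exact le_rfl
  have hrle : ∀ q x, r q x ≤ ρ₀ x := by
    intro q x
    show (if ρ₀ x ≤ q then ρ₀ x else 0) ≤ _
    split_ifs
    · exact le_rfl
    · exact hρ0 x
  have hrq : ∀ q x, r q x ≤ (q : ℝ) := by
    intro q x
    show (if ρ₀ x ≤ q then ρ₀ x else 0) ≤ _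
    split_ifs with h
    · exact h
    · positivity
  have hrm : ∀ q, Measurable (r q) := fun q =>
    Measurable.ite (measurableSet_le hρm measurable_const) hρm measurable_const
  have hrr : ∀ q x, (r q x) ^ (2 / (d : ℝ)) * ρ₀ x = r q x ^ (1 + 2 / (d : ℝ)) := by
    intro q x
    show (if ρ₀ x ≤ q then ρ₀ x else 0) ^ (2 / (d : ℝ)) * ρ₀ x =
      (if ρ₀ x ≤ q then ρ₀ x else 0) ^ (1 + 2 / (d : ℝ))
    split_ifs with h
    · rw [add_comm, Real.rpow_add_one' (hρ0 x) (by positivity)]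
    · rw [Real.zero_rpow he0.ne', Real.zero_rpow (by positivity), zero_mul]
  -- finiteness
  have hrint : ∀ q, Integrable (fun x => r q x ^ (1 + 2 / (d : ℝ))) := by
    intro q
    have h3 : Integrable (fun x => (r q x) ^ (2 / (d : ℝ)) * ρ₀ x) := by
      refine hρ₀int.bdd_mul (c := (q : ℝ) ^ (2 / (d : ℝ)))
        ((hrm q).pow_const _).aestronglyMeasurable (Filter.Eventually.of_forall fun x => ?_)
      rw [Real.norm_of_nonneg (Real.rpow_nonneg (hr0 q x) _)]
      exact Real.rpow_le_rpow (hr0 q x) (hrq q x) he0.le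
    exact h3.congr (Filter.Eventually.of_forall fun x => hrr q x)
  have hK0 : 0 < K := by
    rw [hK]; positivity
  have key : ∀ q : ℕ, ENNReal.ofReal (K) *
      ∫⁻ x, ENNReal.ofReal (r q x ^ (1 + 2 / (d : ℝ))) ≤ ENNReal.ofReal T := by
    intro q
    have h3 := h1 (fun t => (c * (if t ≤ (q : ℝ) then t else 0)) ^ (2 / (d : ℝ)))
      ((measurable_const.mul (Measurable.ite (measurableSet_le measurable_id measurable_const)
        measurable_id measurable_const)).pow_const _)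
      (fun t ht => by
        refine Real.rpow_nonneg (mul_nonneg hc0.le ?_) _
        split_ifs
        · exact ht
        · exact le_rfl)
    set I : ℝ := ∫ x, r q x ^ (1 + 2 / (d : ℝ)) with hI
    have hI0 : 0 ≤ I := integral_nonneg fun x => Real.rpow_nonneg (hr0 q x) _
    have hIe : ∫⁻ x, ENNReal.ofReal (r q x ^ (1 + 2 / (d : ℝ))) = ENNReal.ofReal I := by
      rw [hI, ofReal_integral_eq_lintegral_ofReal (hrint q)]
      exact Filter.Eventually.of_forall fun x => Real.rpow_nonneg (hr0 q x) _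
    have e1 : ∫⁻ x, ENNReal.ofReal ((c * r q x) ^ (2 / (d : ℝ)) * ∑ n, ‖u n x‖ ^ 2) =
        ENNReal.ofReal (c ^ (2 / (d : ℝ)) * I) := by
      rw [ENNReal.ofReal_mul (by positivity), ← hIe, ← lintegral_const_mul' _ _ ENNReal.ofReal_ne_top]
      refine lintegral_congr_ae ?_
      filter_upwards [hae] with x hx
      rw [hx, Real.mul_rpow hc0.le (hr0 q x), mul_assoc, hrr,
        ENNReal.ofReal_mul (by positivity)]
    have e2 : ∫⁻ x, ENNReal.ofReal (((c * r q x) ^ (2 / (d : ℝ))) ^ (1 + (d : ℝ) / 2)) =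
        ENNReal.ofReal (c ^ (2 / (d : ℝ)) * c * I) := by
      rw [ENNReal.ofReal_mul (by positivity), ← hIe, ← lintegral_const_mul' _ _ ENNReal.ofReal_ne_top]
      refine lintegral_congr fun x => ?_
      have e0 : 2 / (d : ℝ) * (1 + (d : ℝ) / 2) = 1 + 2 / (d : ℝ) := by
        field_simp
        ring
      rw [← Real.rpow_mul (mul_nonneg hc0.le (hr0 q x)), e0,
        Real.mul_rpow hc0.le (hr0 q x), ENNReal.ofReal_mul (by positivity)]
      congr 2
      rw [add_comm, Real.rpow_add_one hc0.ne']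
    rw [e1, e2, ← ENNReal.ofReal_mul hL.le, ← ENNReal.ofReal_add hT0 (by positivity),
      ENNReal.ofReal_le_ofReal_iff (by positivity)] at h3
    rw [hIe, ← ENNReal.ofReal_mul hK0.le]
    refine ENNReal.ofReal_le_ofReal ?_
    have e3 : L * c = 2 / ((d : ℝ) + 2) := by
      rw [hc]; field_simp
    have e4 : K = c ^ (2 / (d : ℝ)) * (1 - L * c) := by
      rw [hK, e3]
      have : (d : ℝ) / (d + 2) = 1 - 2 / ((d : ℝ) + 2) := by field_simp; ring
      rw [this]; ring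
    rw [e4]
    nlinarith [h3]
  -- the limit
  have hlim := lintegral_tendsto_of_tendsto_of_monotone (μ := volume)
    (f := fun (q : ℕ) x => ENNReal.ofReal (r q x ^ (1 + 2 / (d : ℝ))))
    (F := fun x => ENNReal.ofReal (ρ₀ x ^ (1 + 2 / (d : ℝ))))
    (fun q => ((hrm q).pow_const _).ennreal_ofReal.aemeasurable)
    (Filter.Eventually.of_forall fun x => fun a b hab => ENNReal.ofReal_le_ofReal
      (Real.rpow_le_rpow (hr0 a x) (by
        have hab' : (a : ℝ) ≤ b := by exact_mod_cast hab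
        show (if ρ₀ x ≤ a then ρ₀ x else 0) ≤ (if ρ₀ x ≤ b then ρ₀ x else 0)
        split_ifs with p1 p2
        · exact le_rfl
        · exact absurd (p1.trans hab') p2
        · exact hρ0 x
        · exact le_rfl) (by positivity)))
    (Filter.Eventually.of_forall fun x => by
      apply tendsto_const_nhds.congr'
      obtain ⟨q0, hq0⟩ := exists_nat_ge (ρ₀ x)
      filter_upwards [eventually_ge_atTop q0] with q hq
      have : ρ₀ x ≤ (q : ℝ) := hq0.trans (by exact_mod_cast hq)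
      show _ = ENNReal.ofReal ((if ρ₀ x ≤ q then ρ₀ x else 0) ^ (1 + 2 / (d : ℝ)))
      rw [if_pos this])
  have hfin : ENNReal.ofReal (K) * ∫⁻ x, ENNReal.ofReal (ρ₀ x ^ (1 + 2 / (d : ℝ))) ≤
      ENNReal.ofReal T :=
    le_of_tendsto' (ENNReal.Tendsto.const_mul hlim (Or.inr ENNReal.ofReal_ne_top)) key
  have hne : ∫⁻ x, ENNReal.ofReal (ρ₀ x ^ (1 + 2 / (d : ℝ))) ≠ ⊤ := by
    intro htop
    rw [htop, ENNReal.mul_top (by simpa using hK0)] at hfin
    exact ENNReal.ofReal_ne_top (top_le_iff.1 hfin)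
  have hint : Integrable (fun x => ρ₀ x ^ (1 + 2 / (d : ℝ))) := by
    refine ⟨(hρm.pow_const _).aestronglyMeasurable, ?_⟩
    rw [hasFiniteIntegral_iff_ofReal
      (Filter.Eventually.of_forall fun x => Real.rpow_nonneg (hρ0 x) _)]
    exact lt_top_iff_ne_top.2 hne
  have hcongr : (fun x => (∑ n, ‖u n x‖ ^ 2) ^ (1 + 2 / (d : ℝ))) =ᵐ[volume]
      fun x => ρ₀ x ^ (1 + 2 / (d : ℝ)) := by
    filter_upwards [hae] with x hx
    rw [hx]
  refine ⟨hint.congr hcongr.symm, ?_⟩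
  rw [integral_congr_ae hcongr]
  have h5 : ∫⁻ x, ENNReal.ofReal (ρ₀ x ^ (1 + 2 / (d : ℝ))) =
      ENNReal.ofReal (∫ x, ρ₀ x ^ (1 + 2 / (d : ℝ))) := by
    rw [ofReal_integral_eq_lintegral_ofReal hint]
    exact Filter.Eventually.of_forall fun x => Real.rpow_nonneg (hρ0 x) _
  rw [h5, ← ENNReal.ofReal_mul hK0.le, ENNReal.ofReal_le_ofReal_iff hT0] at hfin
  exact hfin

theorem t_KINF (h1 : S_GEN) (h2 : S_CST2) : S_KINF := by
  intro k m hk N u g hg hS ρ₀ hρm hρI hρ0 hae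
  have hd1 : 1 ≤ k + m := by omega
  obtain ⟨hL, hK⟩ := h2.2.2 (k + m) hd1
  refine kinf_core hd1 u (fun n => (hg n).f2) _ _ _ ?_ hL hK ρ₀ hρm hρ0 hae ?_
  · exact Finset.sum_nonneg fun n _ => Finset.sum_nonneg fun i _ =>
      integral_nonneg fun x => by positivity
  · intro φ hφ hφ0
    exact h1 k m hk N u g hg hS (fun x => φ (ρ₀ x)) (hφ.comp hρm)
      (fun x x' e1 e2 => by show φ (ρ₀ x) = φ (ρ₀ x'); rw [hρI x x' e1 e2])
      (fun x => hφ0 _ (hρ0 x))

end Pool.Agent.W2helper90.RT
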